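import Pool.Agent.N662.FP.Stm

/-!
# Project FL (helper662), leaf NORM: norm comparison on the plane (helper413)
-/

set_option autoImplicit false

namespace Pool.Agent.N413.FLNORM

open Pool.Agent.N662.FP

theorem norm_eq (x : ℝ × ℝ) : ‖x‖ = max |x.1| |x.2| := by
  rw [Prod.norm_def, Real.norm_eq_abs, Real.norm_eq_abs]

theorem t_NORM : S_NORM := by
  intro μ hμ
  set C : ℝ := μ (1, 0) + μ (0, 1) + 1 with hC
  have hC0 : 0 < C := by
    have h1 := apply_nonneg μ ((1, 0) : ℝ × ℝ)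
    have h2 := apply_nonneg μ ((0, 1) : ℝ × ℝ)
    linarith
  have hup : ∀ x : ℝ × ℝ, μ x ≤ C * ‖x‖ := by
    intro x
    have h1 : x = x.1 • ((1, 0) : ℝ × ℝ) + x.2 • ((0, 1) : ℝ × ℝ) := by
      ext <;> simp
    have h2 : μ x ≤ |x.1| * μ (1, 0) + |x.2| * μ (0, 1) := by
      conv_lhs => rw [h1]
      refine (map_add_le_add μ _ _).trans ?_
      rw [map_smul_eq_mul, map_smul_eq_mul, Real.norm_eq_abs, Real.norm_eq_abs]
    have h3 : |x.1| ≤ ‖x‖ := by rw [norm_eq]; exact le_max_left _ _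
    have h4 : |x.2| ≤ ‖x‖ := by rw [norm_eq]; exact le_max_right _ _
    have h5 := apply_nonneg μ ((1, 0) : ℝ × ℝ)
    have h6 := apply_nonneg μ ((0, 1) : ℝ × ℝ)
    have h7 := mul_le_mul_of_nonneg_right h3 h5
    have h8 := mul_le_mul_of_nonneg_right h4 h6
    have h9 := norm_nonneg x
    rw [hC]
    nlinarith
  have hcont : Continuous μ := by
    have hL : LipschitzWith (Real.toNNReal C) μ := by
      refine LipschitzWith.of_dist_le_mul fun x y => ?_
      rw [Real.dist_eq, dist_eq_norm, Real.coe_toNNReal C hC0.le]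
      exact (abs_sub_map_le_sub μ x y).trans (hup _)
    exact hL.continuous
  have hne : (Metric.sphere (0 : ℝ × ℝ) 1).Nonempty := by
    refine ⟨(1, 0), ?_⟩
    rw [mem_sphere_zero_iff_norm, norm_eq]
    simp
  obtain ⟨z, hz, hmin⟩ := (isCompact_sphere (0 : ℝ × ℝ) 1).exists_isMinOn hne hcont.continuousOn
  rw [mem_sphere_zero_iff_norm] at hz
  have hz0 : 0 < μ z := by
    refine lt_of_le_of_ne (apply_nonneg μ z) fun h => ?_
    rw [hμ z h.symm, norm_zero] at hz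
    exact zero_ne_one hz
  refine ⟨μ z, C, hz0, hC0, fun x => ?_⟩
  rw [← norm_eq]
  refine ⟨?_, hup x⟩
  rcases eq_or_ne x 0 with rfl | hx
  · rw [norm_zero, mul_zero]
    exact apply_nonneg μ _
  · have hxn : 0 < ‖x‖ := norm_pos_iff.2 hx
    have h1 : ‖x‖⁻¹ • x ∈ Metric.sphere (0 : ℝ × ℝ) 1 := by
      rw [mem_sphere_zero_iff_norm, norm_smul, norm_inv, norm_norm, inv_mul_cancel₀ hxn.ne']
    have h2 : μ z ≤ μ (‖x‖⁻¹ • x) := hmin h1
    rw [map_smul_eq_mul, norm_inv, norm_norm] at h2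
    calc μ z * ‖x‖ ≤ (‖x‖⁻¹ * μ x) * ‖x‖ := mul_le_mul_of_nonneg_right h2 hxn.le
      _ = μ x := by field_simp

end Pool.Agent.N413.FLNORM
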